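import Pool.Agent.Q218.WE.Stm

/-! # Project WE (helper218), job LIPK (helper150) -/

set_option autoImplicit false
set_option linter.unusedSectionVars false

open scoped BigOperators Topology InnerProductSpace
open MeasureTheory Filter Set

namespace Pool.Agent.Q150.WE

open Pool.Agent.W788.LD.Spec (S summ_mul)
open Pool.Agent.H4R2.LO (Zd)
open Pool.Agent.TH794.QD (Sol HS hmk hmk_apply hs_sum)
open Pool.Agent.Q218.AT (HT uu uu_inner)
open Pool.Agent.Q218.AD (Dv Dv_cont hs_inner bess)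
open Pool.Agent.Q218.UD (S_l2)
open Pool.Agent.Q218.WE

variable {d : ℕ} {V V' : Zd d → ℝ} {a b : Zd d} {ψ ψ' : ℝ → Zd d → ℂ}

/-- the derivative of a term of the inner product -/
noncomputable def Ed (V V' : Zd d → ℝ) (ψ ψ' : ℝ → Zd d → ℂ) (m : Zd d) (s : ℝ) : ℂ :=
  (starRingEnd ℂ) (Dv V ψ s m) * ψ' s m + (starRingEnd ℂ) (ψ s m) * Dv V' ψ' s m

theorem Ed_eq (m : Zd d) (s : ℝ) : Ed V V' ψ ψ' m s =
    Complex.I * ((starRingEnd ℂ) (ψ s m) * S (ψ' s) m - (starRingEnd ℂ) (S (ψ s) m) * ψ' s m) +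
    Complex.I * (((V m - V' m : ℝ) : ℂ) * ((starRingEnd ℂ) (ψ s m) * ψ' s m)) := by
  unfold Ed Dv
  simp only [map_mul, map_neg, map_add, Complex.conj_I, Complex.conj_ofReal]
  push_cast
  ring

theorem Ed_deriv (h : Sol d V a ψ) (h' : Sol d V' b ψ') (m : Zd d) (s : ℝ) :
    HasDerivAt (fun s => (starRingEnd ℂ) (ψ s m) * ψ' s m) (Ed V V' ψ ψ' m s) s := by
  have h1 : HasDerivAt (fun s => (starRingEnd ℂ) (ψ s m)) ((starRingEnd ℂ) (Dv V ψ s m)) s :=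
    (h.ode s m).star
  have h2 := h1.mul (h'.ode s m)
  exact h2

theorem Ed_cont (h : Sol d V a ψ) (h' : Sol d V' b ψ') (m : Zd d) :
    Continuous fun s => Ed V V' ψ ψ' m s := by
  unfold Ed
  have h1 := Dv_cont h m
  have h2 := Dv_cont h' m
  have h3 := h.cont m
  have h4 := h'.cont m
  have h5 : Continuous fun s => (starRingEnd ℂ) (Dv V ψ s m) := Complex.continuous_conj.comp h1
  have h6 : Continuous fun s => (starRingEnd ℂ) (ψ s m) := Complex.continuous_conj.comp h3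
  exact (h5.mul h4).add (h6.mul h2)

/-- the inner product of two evolutions with the potentials `V`, `V'` -/
noncomputable def inp (ψ ψ' : ℝ → Zd d → ℂ) (t : ℝ) : ℂ := ∑' m, (starRingEnd ℂ) (ψ t m) * ψ' t m

/-- its derivative -/
noncomputable def inpd (V V' : Zd d → ℝ) (K : Finset (Zd d)) (ψ ψ' : ℝ → Zd d → ℂ) (t : ℝ) : ℂ :=
  Complex.I * ∑ m ∈ K, ((V m - V' m : ℝ) : ℂ) * ((starRingEnd ℂ) (ψ t m) * ψ' t m)

theorem Ed_tsum (h : Sol d V a ψ) (h' : Sol d V' b ψ') (K : Finset (Zd d))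
    (hK : ∀ x, x ∉ K → V x = V' x) (s : ℝ) :
    ∑' m, Ed V V' ψ ψ' m s = inpd V V' K ψ ψ' s := by
  obtain ⟨s1, s2, e1⟩ := Pool.Agent.W788.LD.Spec.symm (ψ s) (ψ' s) (h.norm s).summable
    (h'.norm s).summable
  have hz : ∀ m ∉ K, ((V m - V' m : ℝ) : ℂ) * ((starRingEnd ℂ) (ψ s m) * ψ' s m) = 0 := by
    intro m hm
    rw [hK m hm, sub_self, Complex.ofReal_zero, zero_mul]
  have s3 : Summable fun m => ((V m - V' m : ℝ) : ℂ) * ((starRingEnd ℂ) (ψ s m) * ψ' s m) :=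
    summable_of_ne_finset_zero (s := K) hz
  simp only [Ed_eq]
  rw [Summable.tsum_add ((s1.sub s2).mul_left _) (s3.mul_left _), tsum_mul_left,
    Summable.tsum_sub s1 s2, e1, sub_self, mul_zero, zero_add, tsum_mul_left,
    tsum_eq_sum (s := K) hz]
  rfl

theorem inpd_cont (h : Sol d V a ψ) (h' : Sol d V' b ψ') (K : Finset (Zd d)) :
    Continuous fun s => inpd V V' K ψ ψ' s := by
  unfold inpd
  refine continuous_const.mul (continuous_finsetSum _ fun m _ => continuous_const.mul ?_)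
  exact (Complex.continuous_conj.comp (h.cont m)).mul (h'.cont m)

theorem inp_int (h : Sol d V a ψ) (h' : Sol d V' b ψ') (K : Finset (Zd d))
    (hK : ∀ x, x ∉ K → V x = V' x) (t0 t1 : ℝ) (ht : t0 ≤ t1) :
    inp ψ ψ' t1 - inp ψ ψ' t0 = ∫ s in t0..t1, inpd V V' K ψ ψ' s := by
  obtain ⟨C, hC, hSb⟩ := S_l2 d
  rw [intervalIntegral.integral_of_le ht]
  simp only [← Ed_tsum h h' K hK]
  obtain ⟨μ, hμ⟩ : ∃ μ : Measure ℝ, μ = volume.restrict (Ioc t0 t1) := ⟨_, rfl⟩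
  have hfin : IsFiniteMeasure μ := by
    rw [hμ]
    exact ⟨by simp⟩
  rw [← hμ]
  have i1 : ∀ m, Integrable (fun s => Ed V V' ψ ψ' m s) μ := fun m => by
    rw [hμ, ← IntegrableOn, ← intervalIntegrable_iff_integrableOn_Ioc_of_le ht]
    exact (Ed_cont h h' m).intervalIntegrable _ _
  obtain ⟨D, hD⟩ : ∃ D : ℝ, D = ∑ m ∈ K, |V m - V' m| := ⟨_, rfl⟩
  have hD0 : 0 ≤ D := by rw [hD]; exact Finset.sum_nonneg fun _ _ => abs_nonneg _
  have hDm : ∀ m, |V m - V' m| ≤ D := by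
    intro m
    by_cases hm : m ∈ K
    · rw [hD]
      exact Finset.single_le_sum (f := fun m => |V m - V' m|) (fun _ _ => abs_nonneg _) hm
    · rw [hK m hm, sub_self, abs_zero]; exact hD0
  have hpt : ∀ s m, ‖Ed V V' ψ ψ' m s‖ ≤
      (‖S (ψ s) m‖ ^ 2 + ‖S (ψ' s) m‖ ^ 2) + (1 + D) * (‖ψ s m‖ ^ 2 + ‖ψ' s m‖ ^ 2) := by
    intro s m
    rw [Ed_eq]
    have h1 : ‖Complex.I * ((starRingEnd ℂ) (ψ s m) * S (ψ' s) m -
        (starRingEnd ℂ) (S (ψ s) m) * ψ' s m)‖ ≤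
        ‖ψ s m‖ * ‖S (ψ' s) m‖ + ‖S (ψ s) m‖ * ‖ψ' s m‖ := by
      rw [norm_mul, Complex.norm_I, one_mul]
      refine (norm_sub_le _ _).trans (le_of_eq ?_)
      simp only [norm_mul, Complex.norm_conj]
    have h2 : ‖Complex.I * (((V m - V' m : ℝ) : ℂ) * ((starRingEnd ℂ) (ψ s m) * ψ' s m))‖ ≤
        D * (‖ψ s m‖ * ‖ψ' s m‖) := by
      rw [norm_mul, Complex.norm_I, one_mul, norm_mul, norm_mul, Complex.norm_conj,
        Complex.norm_real, Real.norm_eq_abs]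
      exact mul_le_mul_of_nonneg_right (hDm m) (by positivity)
    refine (norm_add_le _ _).trans ((add_le_add h1 h2).trans ?_)
    have h3 : ‖ψ s m‖ * ‖ψ' s m‖ ≤ ‖ψ s m‖ ^ 2 + ‖ψ' s m‖ ^ 2 := by
      nlinarith [sq_nonneg (‖ψ s m‖ - ‖ψ' s m‖), sq_nonneg ‖ψ s m‖, sq_nonneg ‖ψ' s m‖]
    have h4 := mul_le_mul_of_nonneg_left h3 hD0
    nlinarith [sq_nonneg (‖ψ s m‖ - ‖S (ψ' s) m‖), sq_nonneg (‖S (ψ s) m‖ - ‖ψ' s m‖),
      sq_nonneg ‖ψ s m‖, sq_nonneg ‖S (ψ' s) m‖, sq_nonneg ‖S (ψ s) m‖, sq_nonneg ‖ψ' s m‖]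
  have hsm : Summable fun m => ∫ s, ‖Ed V V' ψ ψ' m s‖ ∂μ := by
    obtain ⟨M, hM⟩ : ∃ M, M = (C + C) + (1 + D) * (1 + 1) := ⟨_, rfl⟩
    refine summable_of_sum_le (c := μ.real univ * M) (fun m => integral_nonneg fun s =>
      norm_nonneg _) fun F => ?_
    rw [← integral_finsetSum _ fun m _ => (i1 m).norm]
    refine (integral_mono (integrable_finsetSum _ fun m _ => (i1 m).norm) (integrable_const M)
      fun s => ?_).trans (le_of_eq ?_)
    · refine (Finset.sum_le_sum fun m _ => hpt s m).trans ?_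
      rw [Finset.sum_add_distrib, Finset.sum_add_distrib, ← Finset.mul_sum,
        Finset.sum_add_distrib, hM]
      obtain ⟨g1, g2⟩ := hSb (ψ s) (h.norm s).summable
      obtain ⟨g1', g2'⟩ := hSb (ψ' s) (h'.norm s).summable
      rw [(h.norm s).tsum_eq, mul_one] at g2
      rw [(h'.norm s).tsum_eq, mul_one] at g2'
      have k1 := (g1.sum_le_tsum F fun x _ => sq_nonneg _).trans g2
      have k2 := (g1'.sum_le_tsum F fun x _ => sq_nonneg _).trans g2'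
      have k3 := (h.norm s).summable.sum_le_tsum F fun x _ => sq_nonneg _
      have k4 := (h'.norm s).summable.sum_le_tsum F fun x _ => sq_nonneg _
      rw [(h.norm s).tsum_eq] at k3
      rw [(h'.norm s).tsum_eq] at k4
      have k5 := mul_le_mul_of_nonneg_left (add_le_add k3 k4) (show 0 ≤ 1 + D by linarith)
      linarith
    · rw [integral_const, smul_eq_mul]
  have key := hasSum_integral_of_summable_integral_norm i1 hsm
  rw [← key.tsum_eq]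
  unfold inp
  rw [← Summable.tsum_sub (summ_mul _ _ (h.norm t1).summable (h'.norm t1).summable)
    (summ_mul _ _ (h.norm t0).summable (h'.norm t0).summable)]
  refine tsum_congr fun m => ?_
  have h3 : ∫ s in t0..t1, Ed V V' ψ ψ' m s =
      (starRingEnd ℂ) (ψ t1 m) * ψ' t1 m - (starRingEnd ℂ) (ψ t0 m) * ψ' t0 m :=
    intervalIntegral.integral_eq_sub_of_hasDerivAt
      (f := fun s => (starRingEnd ℂ) (ψ s m) * ψ' s m) (fun s _ => Ed_deriv h h' m s)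
      ((Ed_cont h h' m).intervalIntegrable _ _)
  rw [hμ, ← intervalIntegral.integral_of_le ht, h3]

theorem inp_deriv (h : Sol d V a ψ) (h' : Sol d V' b ψ') (K : Finset (Zd d))
    (hK : ∀ x, x ∉ K → V x = V' x) (t : ℝ) :
    HasDerivAt (inp ψ ψ') (inpd V V' K ψ ψ' t) t := by
  have hint : ∀ t, inp ψ ψ' t = inp ψ ψ' 0 + ∫ s in (0 : ℝ)..t, inpd V V' K ψ ψ' s := by
    intro t
    rcases le_total 0 t with h0 | h0
    · rw [← inp_int h h' K hK 0 t h0]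
      ring
    · rw [intervalIntegral.integral_symm, ← inp_int h h' K hK t 0 h0]
      ring
  have hc := inpd_cont h h' K
  have h1 := (intervalIntegral.integral_hasDerivAt_right (hc.intervalIntegrable 0 t)
    hc.aestronglyMeasurable.stronglyMeasurableAtFilter hc.continuousAt).const_add (inp ψ ψ' 0)
  exact h1.congr_of_eventuallyEq (Filter.Eventually.of_forall hint)

variable {Ψ Ψ' : Zd d → ℝ → Zd d → ℂ}

theorem uu_sq' (hψ : ∀ a, Sol d V a (Ψ a)) (a : Zd d) (t : ℝ) : ‖uu hψ a t‖ ^ 2 = 1 := by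
  have h1 := hs_sum (uu hψ a t)
  exact h1.unique ((hψ a).norm t)

theorem uu_one' (hψ : ∀ a, Sol d V a (Ψ a)) (a : Zd d) (t : ℝ) : ‖uu hψ a t‖ = 1 :=
  (pow_eq_one_iff_of_nonneg (norm_nonneg _) two_ne_zero).1 (uu_sq' hψ a t)

theorem uu_ortho' (hd : 1 ≤ d) (hψ : ∀ a, Sol d V a (Ψ a)) (t : ℝ) :
    Orthonormal ℂ fun a => uu hψ a t := by
  refine ⟨fun a => uu_one' hψ a t, fun x y hxy => ?_⟩
  simp only
  rw [uu_inner hd hψ, sub_self, (hψ y).init, if_neg hxy]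

theorem uu_inp (hψ : ∀ a, Sol d V a (Ψ a)) (hψ' : ∀ a, Sol d V' a (Ψ' a)) (x y : Zd d) (t : ℝ) :
    ⟪uu hψ x t, uu hψ' y t⟫_ℂ = inp (Ψ x) (Ψ' y) t :=
  (hs_inner (uu hψ x t) (uu hψ' y t)).tsum_eq.symm

/-- the distance of the two families -/
noncomputable def gg (hψ : ∀ a, Sol d V a (Ψ a)) (hψ' : ∀ a, Sol d V' a (Ψ' a))
    (Λ : Finset (Zd d)) (t : ℝ) : ℝ := ∑ x ∈ Λ, ‖uu hψ x t - uu hψ' x t‖ ^ 2

theorem gg_eq (hψ : ∀ a, Sol d V a (Ψ a)) (hψ' : ∀ a, Sol d V' a (Ψ' a))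
    (Λ : Finset (Zd d)) (t : ℝ) : gg hψ hψ' Λ t = ∑ x ∈ Λ, (2 - 2 * (inp (Ψ x) (Ψ' x) t).re) := by
  unfold gg
  refine Finset.sum_congr rfl fun x _ => ?_
  rw [@norm_sub_sq ℂ, uu_sq', uu_sq', uu_inp]
  simp only [RCLike.re_to_complex]
  ring

theorem gg_nonneg (hψ : ∀ a, Sol d V a (Ψ a)) (hψ' : ∀ a, Sol d V' a (Ψ' a))
    (Λ : Finset (Zd d)) (t : ℝ) : 0 ≤ gg hψ hψ' Λ t := Finset.sum_nonneg fun _ _ => sq_nonneg _

theorem gg_zero (hψ : ∀ a, Sol d V a (Ψ a)) (hψ' : ∀ a, Sol d V' a (Ψ' a))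
    (Λ : Finset (Zd d)) : gg hψ hψ' Λ 0 = 0 := by
  unfold gg
  refine Finset.sum_eq_zero fun x _ => ?_
  have h1 : uu hψ x 0 = uu hψ' x 0 := by
    ext m
    change Ψ x 0 m = Ψ' x 0 m
    rw [(hψ x).init, (hψ' x).init]
  rw [h1, sub_self, norm_zero]
  simp

/-- its derivative -/
noncomputable def gd (V V' : Zd d → ℝ) (Ψ Ψ' : Zd d → ℝ → Zd d → ℂ) (K Λ : Finset (Zd d))
    (t : ℝ) : ℝ := ∑ x ∈ Λ, -(2 * (inpd V V' K (Ψ x) (Ψ' x) t).re)

theorem gg_deriv (hψ : ∀ a, Sol d V a (Ψ a)) (hψ' : ∀ a, Sol d V' a (Ψ' a))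
    (K : Finset (Zd d)) (hK : ∀ x, x ∉ K → V x = V' x) (Λ : Finset (Zd d)) (t : ℝ) :
    HasDerivAt (gg hψ hψ' Λ) (gd V V' Ψ Ψ' K Λ t) t := by
  have h1 : gg hψ hψ' Λ = fun t => ∑ x ∈ Λ, (2 - 2 * (inp (Ψ x) (Ψ' x) t).re) :=
    funext fun t => gg_eq hψ hψ' Λ t
  rw [h1]
  unfold gd
  refine HasDerivAt.fun_sum fun x _ => ?_
  have h2 := inp_deriv (hψ x) (hψ' x) K hK t
  have h3 : HasDerivAt (fun t => (inp (Ψ x) (Ψ' x) t).re) (inpd V V' K (Ψ x) (Ψ' x) t).re t :=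
    (Complex.reCLM.hasFDerivAt.comp_hasDerivAt t h2)
  exact (h3.const_mul 2).const_sub 2

theorem gd_le (hd : 1 ≤ d) (hψ : ∀ a, Sol d V a (Ψ a)) (hψ' : ∀ a, Sol d V' a (Ψ' a))
    (K Λ : Finset (Zd d)) (t : ℝ) :
    |gd V V' Ψ Ψ' K Λ t| ≤
      2 * Real.sqrt (∑ m ∈ K, (V m - V' m) ^ 2) * Real.sqrt (gg hψ hψ' Λ t) := by
  have h1 : ∀ x m, ((Complex.I * (((V m - V' m : ℝ) : ℂ) *
      ((starRingEnd ℂ) (Ψ x t m) * Ψ' x t m))).re) =
      (Complex.I * (((V m - V' m : ℝ) : ℂ) *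
      ((starRingEnd ℂ) (Ψ x t m) * (Ψ' x t m - Ψ x t m)))).re := by
    intro x m
    rw [mul_sub, Complex.conj_mul', mul_sub, mul_sub, Complex.sub_re]
    have : (Complex.I * (((V m - V' m : ℝ) : ℂ) * ((‖Ψ x t m‖ : ℝ) : ℂ) ^ 2)).re = 0 := by
      rw [← Complex.ofReal_pow, ← Complex.ofReal_mul, Complex.re_mul_ofReal, Complex.I_re,
        zero_mul]
    rw [this, sub_zero]
  have h2 : gd V V' Ψ Ψ' K Λ t = ∑ p ∈ Λ ×ˢ K, -(2 * (Complex.I * (((V p.2 - V' p.2 : ℝ) : ℂ) *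
      ((starRingEnd ℂ) (Ψ p.1 t p.2) * (Ψ' p.1 t p.2 - Ψ p.1 t p.2)))).re) := by
    unfold gd inpd
    rw [Finset.sum_product]
    refine Finset.sum_congr rfl fun x _ => ?_
    rw [Finset.mul_sum, Complex.re_sum, Finset.mul_sum, ← Finset.sum_neg_distrib]
    refine Finset.sum_congr rfl fun m _ => ?_
    rw [h1]
  rw [h2]
  refine (Finset.abs_sum_le_sum_abs _ _).trans ?_
  have h3 : ∀ p ∈ Λ ×ˢ K, |-(2 * (Complex.I * (((V p.2 - V' p.2 : ℝ) : ℂ) *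
      ((starRingEnd ℂ) (Ψ p.1 t p.2) * (Ψ' p.1 t p.2 - Ψ p.1 t p.2)))).re)| ≤
      2 * ((|V p.2 - V' p.2| * ‖Ψ p.1 t p.2‖) * ‖Ψ' p.1 t p.2 - Ψ p.1 t p.2‖) := by
    intro p _
    rw [abs_neg, abs_mul, abs_two]
    refine mul_le_mul_of_nonneg_left ((Complex.abs_re_le_norm _).trans (le_of_eq ?_)) (by norm_num)
    rw [norm_mul, Complex.norm_I, one_mul, norm_mul, norm_mul, Complex.norm_conj,
      Complex.norm_real, Real.norm_eq_abs]
    ring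
  refine (Finset.sum_le_sum h3).trans ?_
  rw [← Finset.mul_sum, mul_assoc]
  refine mul_le_mul_of_nonneg_left ?_ (by norm_num)
  refine (Real.sum_mul_le_sqrt_mul_sqrt (Λ ×ˢ K) _ _).trans ?_
  refine mul_le_mul (Real.sqrt_le_sqrt ?_) (Real.sqrt_le_sqrt ?_) (Real.sqrt_nonneg _)
    (Real.sqrt_nonneg _)
  · rw [Finset.sum_product_right]
    refine Finset.sum_le_sum fun m _ => ?_
    simp only [mul_pow, sq_abs]
    rw [← Finset.mul_sum]
    have h4 := bess (fun a => uu hψ a t) (uu_ortho' hd hψ t) Λ m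
    have h5 : ∑ x ∈ Λ, ‖Ψ x t m‖ ^ 2 ≤ 1 := h4
    nlinarith [sq_nonneg (V m - V' m)]
  · rw [Finset.sum_product]
    unfold gg
    refine Finset.sum_le_sum fun x _ => ?_
    have h4 := hs_sum (uu hψ x t - uu hψ' x t)
    have h5 := sum_le_hasSum K (fun _ _ => sq_nonneg _) h4
    refine le_trans (le_of_eq (Finset.sum_congr rfl fun m _ => ?_)) h5
    rw [norm_sub_rev]
    rfl

theorem gg_le (hd : 1 ≤ d) (hψ : ∀ a, Sol d V a (Ψ a)) (hψ' : ∀ a, Sol d V' a (Ψ' a))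
    (K : Finset (Zd d)) (hK : ∀ x, x ∉ K → V x = V' x) (Λ : Finset (Zd d)) (t : ℝ) (ht : 0 ≤ t) :
    Real.sqrt (gg hψ hψ' Λ t) ≤ t * Real.sqrt (∑ m ∈ K, (V m - V' m) ^ 2) := by
  obtain ⟨w, hw⟩ : ∃ w, w = Real.sqrt (∑ m ∈ K, (V m - V' m) ^ 2) := ⟨_, rfl⟩
  have hw0 : 0 ≤ w := by rw [hw]; exact Real.sqrt_nonneg _
  rw [← hw]
  refine le_of_forall_pos_le_add fun ε hε => ?_
  obtain ⟨φ, hφ⟩ : ∃ φ : ℝ → ℝ, φ = fun s => Real.sqrt (gg hψ hψ' Λ s + ε ^ 2) := ⟨_, rfl⟩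
  have hpos : ∀ s, 0 < gg hψ hψ' Λ s + ε ^ 2 := fun s => by
    have := gg_nonneg hψ hψ' Λ s
    positivity
  have hφd : ∀ s, HasDerivAt φ (gd V V' Ψ Ψ' K Λ s / (2 * Real.sqrt (gg hψ hψ' Λ s + ε ^ 2))) s := by
    intro s
    rw [hφ]
    exact ((gg_deriv hψ hψ' K hK Λ s).add_const (ε ^ 2)).sqrt (hpos s).ne'
  have hb : ∀ s ∈ Set.Ico (0 : ℝ) t,
      ‖gd V V' Ψ Ψ' K Λ s / (2 * Real.sqrt (gg hψ hψ' Λ s + ε ^ 2))‖ ≤ w := by
    intro s _
    have h1 := gd_le (V := V) (V' := V') hd hψ hψ' K Λ s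
    rw [← hw] at h1
    have h2 : 0 < Real.sqrt (gg hψ hψ' Λ s + ε ^ 2) := Real.sqrt_pos.2 (hpos s)
    have h3 : Real.sqrt (gg hψ hψ' Λ s) ≤ Real.sqrt (gg hψ hψ' Λ s + ε ^ 2) :=
      Real.sqrt_le_sqrt (by nlinarith)
    rw [norm_div, Real.norm_eq_abs, Real.norm_of_nonneg (by positivity), div_le_iff₀ (by positivity)]
    nlinarith
  have h2 := norm_image_sub_le_of_norm_deriv_le_segment' (f := φ)
    (f' := fun s => gd V V' Ψ Ψ' K Λ s / (2 * Real.sqrt (gg hψ hψ' Λ s + ε ^ 2))) (C := w)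
    (fun s _ => (hφd s).hasDerivWithinAt) hb t ⟨ht, le_rfl⟩
  have h3 : φ 0 = ε := by
    rw [hφ]
    simp only
    rw [gg_zero, zero_add, Real.sqrt_sq hε.le]
  have h4 : Real.sqrt (gg hψ hψ' Λ t) ≤ φ t := by
    rw [hφ]
    exact Real.sqrt_le_sqrt (by nlinarith)
  rw [h3, sub_zero] at h2
  have h5 := (le_abs_self _).trans h2
  linarith

theorem vw_apply (f g : HS d) (p : Zd d × Zd d) : vw f g p = f p.1 * (starRingEnd ℂ) (g p.2) := rfl

theorem sm_mul' (f g : HS d) : Summable fun x => ‖(starRingEnd ℂ) (f x) * g x‖ := by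
  have h1 := (hs_sum f).summable.add (hs_sum g).summable
  refine Summable.of_nonneg_of_le (fun x => norm_nonneg _) (fun x => ?_) h1
  rw [norm_mul, Complex.norm_conj]
  nlinarith [sq_nonneg (‖f x‖ - ‖g x‖), sq_nonneg ‖f x‖, sq_nonneg ‖g x‖]

theorem vw_inner (f g f' g' : HS d) :
    ⟪vw f g, vw f' g'⟫_ℂ = ⟪f, f'⟫_ℂ * (starRingEnd ℂ) ⟪g, g'⟫_ℂ := by
  have h := lp.hasSum_inner (𝕜 := ℂ) (vw f g) (vw f' g')
  obtain ⟨F, hF⟩ : ∃ F : Zd d → ℂ, F = fun x => (starRingEnd ℂ) (f x) * f' x := ⟨_, rfl⟩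
  obtain ⟨G, hG⟩ : ∃ G : Zd d → ℂ, G = fun x => (starRingEnd ℂ) ((starRingEnd ℂ) (g x) * g' x) :=
    ⟨_, rfl⟩
  have h1 : HasSum F ⟪f, f'⟫_ℂ := by
    rw [hF]
    exact hs_inner f f'
  have h2 : HasSum G ((starRingEnd ℂ) ⟪g, g'⟫_ℂ) := by
    rw [hG]
    exact (hs_inner g g').star
  have s1 : Summable fun x => ‖F x‖ := by
    rw [hF]
    exact sm_mul' f f'
  have s2 : Summable fun x => ‖G x‖ := by
    rw [hG]
    simp only [Complex.norm_conj]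
    exact sm_mul' g g'
  have h3 : Summable fun p : Zd d × Zd d => F p.1 * G p.2 :=
    summable_mul_of_summable_norm (f := F) (g := G) s1 s2
  have h4 := h1.mul h2 h3
  have h6 : (fun p : Zd d × Zd d => F p.1 * G p.2) = fun p => ⟪vw f g p, vw f' g' p⟫_ℂ := by
    funext p
    rw [RCLike.inner_apply, vw_apply, vw_apply, hG, hF]
    simp only [map_mul, Complex.conj_conj]
    ring
  rw [h6] at h4
  exact h.unique h4

theorem vw_sub_left (f f' g : HS d) : vw (f - f') g = vw f g - vw f' g := by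
  ext p
  change (f p.1 - f' p.1) * _ = f p.1 * _ - f' p.1 * _
  ring

theorem vw_sub_right (f g g' : HS d) : vw f (g - g') = vw f g - vw f g' := by
  ext p
  change f p.1 * (starRingEnd ℂ) (g p.2 - g' p.2) = f p.1 * _ - f p.1 * _
  rw [map_sub]
  ring

/-- orthogonal sums -/
theorem sq_sum {ι : Type*} [DecidableEq ι] {E : Type*} [NormedAddCommGroup E]
    [InnerProductSpace ℂ E] (Λ : Finset ι) (c : ι → ℂ) (hc : ∀ x, ‖c x‖ ≤ 1) (v : ι → E)
    (hv : ∀ x y, x ≠ y → ⟪v x, v y⟫_ℂ = 0) (r : ι → ℝ) (hr : ∀ x, ‖v x‖ ^ 2 = r x) :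
    ‖∑ x ∈ Λ, c x • v x‖ ^ 2 ≤ ∑ x ∈ Λ, r x := by
  have h1 : ⟪∑ x ∈ Λ, c x • v x, ∑ x ∈ Λ, c x • v x⟫_ℂ = ((∑ x ∈ Λ, ‖c x‖ ^ 2 * r x : ℝ) : ℂ) := by
    rw [sum_inner]
    push_cast
    refine Finset.sum_congr rfl fun x hx => ?_
    rw [inner_sum, Finset.sum_eq_single x]
    · rw [inner_smul_left, inner_smul_right, inner_self_eq_norm_sq_to_K, ← mul_assoc,
        Complex.conj_mul', ← hr x]
      push_cast
      rfl
    · intro y _ hy
      rw [inner_smul_left, inner_smul_right, hv x y (Ne.symm hy), mul_zero, mul_zero]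
    · intro hx'
      exact absurd hx hx'
  have h2 := inner_self_eq_norm_sq (𝕜 := ℂ) (∑ x ∈ Λ, c x • v x)
  rw [h1] at h2
  simp only [RCLike.re_to_complex, Complex.ofReal_re] at h2
  rw [← h2]
  refine Finset.sum_le_sum fun x _ => ?_
  have h3 : ‖c x‖ ^ 2 ≤ 1 := pow_le_one₀ (norm_nonneg _) (hc x)
  have h4 : 0 ≤ r x := by rw [← hr x]; positivity
  nlinarith

theorem t_LIPK : S_LIPK := by
  classical
  intro d hd V V' ψ ψ' hψ hψ' K hK Λ c z hc t ht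
  obtain ⟨w, hw⟩ : ∃ w, w = Real.sqrt (∑ m ∈ K, (V m - V' m) ^ 2) := ⟨_, rfl⟩
  have hinj : Function.Injective fun x : Zd d => x + z := add_left_injective z
  have h1 : ∀ x, c x • (vw (uu hψ x t) (uu hψ (x + z) t) - vw (uu hψ' x t) (uu hψ' (x + z) t)) =
      c x • vw (uu hψ x t - uu hψ' x t) (uu hψ (x + z) t) +
      c x • vw (uu hψ' x t) (uu hψ (x + z) t - uu hψ' (x + z) t) := by
    intro x
    rw [vw_sub_left, vw_sub_right, ← smul_add]
    congr 1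
    abel
  simp only [h1]
  rw [Finset.sum_add_distrib]
  refine (norm_add_le _ _).trans ?_
  have ho := uu_ortho' hd hψ t
  have ho' := uu_ortho' hd hψ' t
  have h2 : ‖∑ x ∈ Λ, c x • vw (uu hψ x t - uu hψ' x t) (uu hψ (x + z) t)‖ ≤ t * w := by
    rw [hw]
    refine le_trans ?_ (gg_le hd hψ hψ' K hK Λ t ht)
    apply Real.le_sqrt_of_sq_le
    refine sq_sum Λ c hc _ ?_ _ ?_
    · intro x y hxy
      rw [vw_inner, ho.2 (hinj.ne hxy), map_zero, mul_zero]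
    · intro x
      have h3 := inner_self_eq_norm_sq (𝕜 := ℂ)
        (vw (uu hψ x t - uu hψ' x t) (uu hψ (x + z) t))
      rw [vw_inner, inner_self_eq_norm_sq_to_K, inner_self_eq_norm_sq_to_K, uu_one'] at h3
      rw [← h3]
      simp
      norm_cast
  have h3 : ‖∑ x ∈ Λ, c x • vw (uu hψ' x t) (uu hψ (x + z) t - uu hψ' (x + z) t)‖ ≤ t * w := by
    rw [hw]
    refine le_trans ?_ (gg_le hd hψ hψ' K hK (Λ.image fun x => x + z) t ht)
    apply Real.le_sqrt_of_sq_le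
    unfold gg
    rw [Finset.sum_image fun x _ y _ h => hinj h]
    refine sq_sum Λ c hc _ ?_ _ ?_
    · intro x y hxy
      rw [vw_inner, ho'.2 hxy, zero_mul]
    · intro x
      have h3 := inner_self_eq_norm_sq (𝕜 := ℂ)
        (vw (uu hψ' x t) (uu hψ (x + z) t - uu hψ' (x + z) t))
      rw [vw_inner, inner_self_eq_norm_sq_to_K, inner_self_eq_norm_sq_to_K, uu_one'] at h3
      rw [← h3]
      simp
      norm_cast
  rw [← hw]
  linarith

end Pool.Agent.Q150.WE
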